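import Mathlib
import Pool.Agent.X7.SignedSpan

open Pool.Agent.X7.SignedSpan

namespace Pool.Agent.Results.MP_b53101_co.RankTwoClassification

/-- **Main theorem.** Let `G ≅ Z_{n₁} × Z_{n₂}` with `2 ≤ n₁ ∣ n₂` (i.e. `G` has rank two) and let
`k = n₂ / n₁`, `t = ⌊s / n₁⌋`, `e = s mod n₁`. Then `φ_±(G,[0,s]) = 2` if and only if
* `n₁` is odd, `e = n₁ - 1` and `k ≤ 2t² + 2t + 1`, or
* `2e + 1 ≥ n₁` and `k ≤ 2t² + 2t`, or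
* `k ≤ 2t² - t`, or
* `k ≤ 2t²` and (`t` and `k` are even, or `t` is odd and `k ≡ 2 mod 4`). -/
theorem result (s n₁ n₂ : ℕ) (h1 : 2 ≤ n₁) (h12 : n₁ ∣ n₂) (h2 : 0 < n₂)
    (G : Type*) [AddCommGroup G] (f : G ≃+ ZMod n₁ × ZMod n₂) :
    phi G s = 2 ↔
      ((n₁ % 2 = 1 ∧ s % n₁ = n₁ - 1 ∧ n₂ / n₁ ≤ 2 * (s / n₁) ^ 2 + 2 * (s / n₁) + 1) ∨
      (n₁ ≤ 2 * (s % n₁) + 1 ∧ n₂ / n₁ ≤ 2 * (s / n₁) ^ 2 + 2 * (s / n₁)) ∨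
      (n₂ / n₁ + s / n₁ ≤ 2 * (s / n₁) ^ 2) ∨
      (n₂ / n₁ ≤ 2 * (s / n₁) ^ 2 ∧
        (((s / n₁) % 2 = 0 ∧ (n₂ / n₁) % 2 = 0) ∨ ((s / n₁) % 2 = 1 ∧ (n₂ / n₁) % 4 = 2)))) := by
  obtain ⟨k, rfl⟩ := h12
  have hk : 1 ≤ k := by
    rcases Nat.eq_zero_or_pos k with h | h
    · rw [h] at h2; simp at h2
    · exact h
  rw [phi_congr f, classification h1 hk s, Nat.mul_div_cancel_left k (by omega)]
  rfl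

end Pool.Agent.Results.MP_b53101_co.RankTwoClassification
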